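import Pool.Agent.H53.GM.Targets

/-!
Module ATM: atoms are pieces.
-/

set_option autoImplicit false

namespace Pool.Agent.H11.GM

open Pool.Agent.H68.BP Pool.Agent.H58.SF Pool.Agent.H53.GC Pool.Agent.H53.GR Pool.Agent.H53.GM
open Classical

theorem pf_ATM : Pool.Agent.H53.GM.T_ATM := by
  intro τ N F W J M a c z hF
  obtain ⟨h1, h2⟩ := hF.ar c
  constructor
  · rintro ⟨-, f, hf, hr⟩
    have h3 := hf c (fun i => ⟨(i : ℕ), lt_of_lt_of_le i.2 h2⟩) ⟨rfl, fun i => rfl⟩
    have h4 : ∀ i : Fin (τ.ar c), f ⟨(i : ℕ), lt_of_lt_of_le i.2 h2⟩ = a (z i) := by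
      intro i
      refine hr _ (z i) ?_
      change (if h : (i : ℕ) < τ.ar c then some (z ⟨i, h⟩) else none) = some (z i)
      rw [dif_pos i.2]
    have h5 : (fun i : Fin (τ.ar c) => f ⟨(i : ℕ), lt_of_lt_of_le i.2 h2⟩) =
        fun i => a (z i) := funext h4
    rw [← h5]
    exact h3
  · intro hM
    refine ⟨?_, ?_⟩
    · rintro S hS ⟨l, w, ⟨hl, hw⟩, hwS⟩
      subst hl
      refine ⟨w ⟨0, h1⟩, hwS _, ?_⟩
      have h3 : ((w ⟨0, h1⟩ : Fin N) : ℕ) < τ.ar l := by
        rw [hw]
        exact h1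
      change (if h : ((w ⟨0, h1⟩ : Fin N) : ℕ) < τ.ar l then some (z ⟨_, h⟩) else none) ≠ none
      rw [dif_pos h3]
      exact Option.some_ne_none _
    · refine ⟨fun v => if h : (v : ℕ) < τ.ar c then a (z ⟨v, h⟩) else a (z ⟨0, h1⟩), ?_, ?_⟩
      · rintro l w ⟨hl, hw⟩
        subst hl
        have h5 : (fun i : Fin (τ.ar l) => if h : ((w i : Fin N) : ℕ) < τ.ar l then
            a (z ⟨(w i : Fin N), h⟩) else a (z ⟨0, h1⟩)) = fun i => a (z i) := by
          funext i
          have h3 : ((w i : Fin N) : ℕ) < τ.ar l := by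
            rw [hw]
            exact i.2
          rw [dif_pos h3]
          congr 2
          exact Fin.ext (hw i)
        change M l (fun i : Fin (τ.ar l) => if h : ((w i : Fin N) : ℕ) < τ.ar l then
            a (z ⟨(w i : Fin N), h⟩) else a (z ⟨0, h1⟩))
        rw [h5]
        exact hM
      · intro v i hv
        change (if h : (v : ℕ) < τ.ar c then some (z ⟨v, h⟩) else none) = some i at hv
        change (if h : (v : ℕ) < τ.ar c then a (z ⟨v, h⟩) else a (z ⟨0, h1⟩)) = a i
        by_cases h : (v : ℕ) < τ.ar c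
        · rw [dif_pos h] at hv ⊢
          rw [Option.some.inj hv]
        · rw [dif_neg h] at hv
          exact absurd hv (by simp)

end Pool.Agent.H11.GM
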